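import Pool.Agent.H650R2.BfMain

/-!
Fleissner's question on point-finite Borel-additive families in metric spaces: a positive answer
unless there is a weakly inaccessible cardinal below the continuum (inclusive) carrying a saturated
ideal; in particular a positive answer under the continuum hypothesis.
-/

set_option autoImplicit false

universe u

namespace Pool.Agent.Results.MP_b624cf_lc.BoundedClass

open Cardinal Set Order

/-- Weakly inaccessible: uncountable, regular and not a successor cardinal. -/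
def WeaklyInaccessible (κ : Cardinal.{u}) : Prop :=
  ℵ₀ < κ ∧ κ.IsRegular ∧ ∀ μ, κ ≠ Order.succ μ

/-- `J` is a proper `κ`-complete ideal on `κ` which contains the singletons and is `ω₁`-saturated:
every family of pairwise disjoint sets outside `J` is countable. -/
structure SaturatedIdeal (κ : Cardinal.{u}) (J : Set (Set κ.ord.ToType)) : Prop where
  subset : ∀ A ∈ J, ∀ B ⊆ A, B ∈ J
  sUnion : ∀ G ⊆ J, #G < κ → ⋃₀ G ∈ J
  singleton : ∀ x, {x} ∈ J
  proper : Set.univ ∉ J
  saturated : ∀ G : Set (Set κ.ord.ToType), G.PairwiseDisjoint id → (∀ A ∈ G, A ∉ J) →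
    G.Countable

/-- The hierarchy of additive Borel classes of `X`: class `1` consists of the open sets, and class
`α` with `1 < α < ω₁` of the countable unions of complements of sets of smaller class. -/
def AdditiveClasses (X : Type u) [MetricSpace X] (C : Ordinal.{0} → Set (Set X)) : Prop :=
  C 1 = {U : Set X | IsOpen U} ∧
    ∀ α : Ordinal.{0}, 1 < α → α < (Cardinal.aleph 1).ord →
      C α = {A : Set X | ∃ f : ℕ → Set X, A = (⋃ n, f n) ∧
        ∀ n, ∃ β : Ordinal.{0}, 1 ≤ β ∧ β < α ∧ (f n)ᶜ ∈ C β}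

/-- A point-finite Borel-additive family. -/
def Admissible (X : Type u) [MetricSpace X] (𝒳 : Set (Set X)) : Prop :=
  (∀ x : X, {A : Set X | A ∈ 𝒳 ∧ x ∈ A}.Finite) ∧
    ∀ 𝒴 ⊆ 𝒳, @MeasurableSet X (borel X) (⋃₀ 𝒴)

/-- Some additive class of countable index contains the union of every subfamily. -/
def IsBounded (X : Type u) [MetricSpace X] (C : Ordinal.{0} → Set (Set X))
    (𝒳 : Set (Set X)) : Prop :=
  ∃ α : Ordinal.{0}, 1 ≤ α ∧ α < (Cardinal.aleph 1).ord ∧ ∀ 𝒴 ⊆ 𝒳, ⋃₀ 𝒴 ∈ C α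

open Pool.Agent.H650R2.Bf

theorem main (X : Type u) [MetricSpace X] (𝒳 : Set (Set X)) (h : Admissible X 𝒳)
    (C : Ordinal.{0} → Set (Set X)) (hC : AdditiveClasses X C) :
    IsBounded X C 𝒳 ∨ ∃ κ : Cardinal.{u}, WeaklyInaccessible κ ∧ κ ≤ 𝔠 ∧ κ ≤ #𝒳 ∧
      ∃ J, SaturatedIdeal κ J := by
  classical
  have hH : Hier C := ⟨hC.1, hC.2⟩
  have hpf : PF (fun A : 𝒳 => (A : Set X)) := by
    intro x
    have h1 := h.1 x
    refine Set.Finite.of_finite_image (f := Subtype.val) (h1.subset ?_)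
      Subtype.val_injective.injOn
    rintro _ ⟨A, hA, rfl⟩
    exact ⟨A.2, hA⟩
  have hba : BA (fun A : 𝒳 => (A : Set X)) := by
    intro T
    have h1 := h.2 (Subtype.val '' T) (by rintro _ ⟨A, _, rfl⟩; exact A.2)
    rwa [sUnion_image] at h1
  rcases dichotomy hH hpf hba with ⟨α, h1, h2, h3⟩ | ⟨κ, h1, h2, h3, h4, h5, J, h6, h7, h8⟩
  · left
    refine ⟨α, h1, h2, fun 𝒴 h𝒴 => ?_⟩
    have h4 := h3 {A : 𝒳 | (A : Set X) ∈ 𝒴} (subset_univ _)
    refine (congrArg (· ∈ C α) ?_).mp h4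
    ext x
    simp only [mem_iUnion, exists_prop, mem_sUnion]
    constructor
    · rintro ⟨A, hA, hx⟩
      exact ⟨A, hA, hx⟩
    · rintro ⟨A, hA, hx⟩
      exact ⟨⟨A, h𝒴 hA⟩, hA, hx⟩
  · right
    refine ⟨κ, ⟨h1, h4, h5⟩, h2, h3, {A | J A}, ?_, ?_, ?_, ?_, ?_⟩
    · intro A hA B hB
      exact h6.mono B A hA hB
    · intro G hG hGκ
      exact h7 G hGκ fun A hA => hG hA
    · exact h6.single
    · exact h8
    · intro G hG hGJ
      by_contra hc
      have h9 : ℵ₁ ≤ #G := by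
        rw [← succ_aleph0]
        refine Order.succ_le_of_lt (not_le.1 fun h => hc ?_)
        exact (le_aleph0_iff_set_countable (s := G)).1 h
      obtain ⟨e⟩ : Nonempty (Om ↪ G) := by
        rw [← Cardinal.lift_mk_le', mk_Om]
        simpa using h9
      obtain ⟨i, hi⟩ := h6.sat (fun i => ((e i : G) : Set κ.ord.ToType)) (by
        intro i j hij
        exact hG (e i).2 (e j).2 fun h => hij (e.injective (Subtype.ext h)))
      exact hGJ _ (e i).2 hi

theorem result :
    -- a counterexample gives a saturated ideal on a weakly inaccessible cardinal below `𝔠`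
    (∀ (X : Type u) [MetricSpace X] (𝒳 : Set (Set X)), Admissible X 𝒳 →
      ∀ C : Ordinal.{0} → Set (Set X), AdditiveClasses X C →
        IsBounded X C 𝒳 ∨ ∃ κ : Cardinal.{u}, WeaklyInaccessible κ ∧ κ ≤ 𝔠 ∧ κ ≤ #𝒳 ∧
          ∃ J, SaturatedIdeal κ J) ∧
    -- a positive answer if no weakly inaccessible cardinal is at most `𝔠`
    ((∀ κ : Cardinal.{u}, WeaklyInaccessible κ → 𝔠 < κ) →
      ∀ (X : Type u) [MetricSpace X] (𝒳 : Set (Set X)), Admissible X 𝒳 →
        ∀ C : Ordinal.{0} → Set (Set X), AdditiveClasses X C → IsBounded X C 𝒳) ∧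
    -- a positive answer under the continuum hypothesis
    ((𝔠 : Cardinal.{u}) = ℵ₁ →
      ∀ (X : Type u) [MetricSpace X] (𝒳 : Set (Set X)), Admissible X 𝒳 →
        ∀ C : Ordinal.{0} → Set (Set X), AdditiveClasses X C → IsBounded X C 𝒳) := by
  have h2 : (∀ κ : Cardinal.{u}, WeaklyInaccessible κ → 𝔠 < κ) →
      ∀ (X : Type u) [MetricSpace X] (𝒳 : Set (Set X)), Admissible X 𝒳 →
        ∀ C : Ordinal.{0} → Set (Set X), AdditiveClasses X C → IsBounded X C 𝒳 := by
    intro hκ X _ 𝒳 h C hC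
    rcases main X 𝒳 h C hC with h1 | ⟨κ, h1, h2, -, -⟩
    · exact h1
    · exact absurd (hκ κ h1) (not_lt.2 h2)
  refine ⟨fun X _ 𝒳 h C hC => main X 𝒳 h C hC, h2, fun hCH => h2 fun κ hκ => ?_⟩
  by_contra hc
  rw [not_lt, hCH] at hc
  have h3 : ℵ₁ ≤ κ := by rw [← succ_aleph0]; exact Order.succ_le_of_lt hκ.1
  exact hκ.2.2 ℵ₀ ((le_antisymm hc h3).trans succ_aleph0.symm)

end Pool.Agent.Results.MP_b624cf_lc.BoundedClass
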